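import Pool.Agent.NDR.StmtsL

/-!
Squad NDL (MP_b48657_ag), row FRK: the lemma of Farkas over the rationals.
-/

set_option autoImplicit false

namespace Pool.Agent.NDR.H27

theorem frk : FrkStmt := by
  intro m
  induction m with
  | zero =>
    intro V _ _ f g H
    refine ⟨fun _ => 0, fun _ => le_refl _, ?_⟩
    refine LinearMap.ext fun x => ?_
    have h1 : g x ≤ 0 := H x fun i => i.elim0
    have h2 : g (-x) ≤ 0 := H (-x) fun i => i.elim0
    rw [map_neg] at h2
    rw [Finset.univ_eq_empty, Finset.sum_empty, LinearMap.zero_apply]
    linarith
  | succ m ih =>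
    intro V _ _ f g H
    by_cases h : ∀ x, (∀ i : Fin m, f i.castSucc x ≤ 0) → g x ≤ 0
    · obtain ⟨c, hc, hg⟩ := ih V (fun i => f i.castSucc) g h
      refine ⟨Fin.snoc (α := fun _ => ℚ) c 0, fun i => ?_, ?_⟩
      · induction i using Fin.lastCases with
        | last => rw [Fin.snoc_last]
        | cast i => rw [Fin.snoc_castSucc]; exact hc i
      · rw [Fin.sum_univ_castSucc, Fin.snoc_last, zero_smul, add_zero, hg]
        exact Finset.sum_congr rfl fun i _ => by rw [Fin.snoc_castSucc]
    · push Not at h
      obtain ⟨x', hx', hgx⟩ := h
      have hl : 0 < f (Fin.last m) x' := by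
        by_contra hn
        rw [not_lt] at hn
        have := H x' fun i => by
          induction i using Fin.lastCases with
          | last => exact hn
          | cast i => exact hx' i
        linarith
      obtain ⟨x1, h1, h2, h3⟩ : ∃ x1, f (Fin.last m) x1 = 1 ∧
          (∀ i : Fin m, f i.castSucc x1 ≤ 0) ∧ 0 < g x1 := by
        refine ⟨(f (Fin.last m) x')⁻¹ • x', ?_, fun i => ?_, ?_⟩
        · rw [map_smul, smul_eq_mul, inv_mul_cancel₀ hl.ne']
        · rw [map_smul, smul_eq_mul]
          exact mul_nonpos_of_nonneg_of_nonpos (inv_nonneg.2 hl.le) (hx' i)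
        · rw [map_smul, smul_eq_mul]
          exact mul_pos (inv_pos.2 hl) hgx
      obtain ⟨c, hc, hg⟩ := ih V
        (fun i => f i.castSucc - f i.castSucc x1 • f (Fin.last m))
        (g - g x1 • f (Fin.last m)) (by
          intro x hx
          have h4 := H (x - f (Fin.last m) x • x1) fun i => by
            induction i using Fin.lastCases with
            | last =>
              rw [map_sub, map_smul, smul_eq_mul, h1, mul_one, sub_self]
            | cast i =>
              have := hx i
              simp only [LinearMap.sub_apply, LinearMap.smul_apply, smul_eq_mul] at this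
              rw [map_sub, map_smul, smul_eq_mul]
              linarith
          rw [map_sub, map_smul, smul_eq_mul] at h4
          simp only [LinearMap.sub_apply, LinearMap.smul_apply, smul_eq_mul]
          linarith)
      refine ⟨Fin.snoc (α := fun _ => ℚ) c (g x1 - ∑ i, c i * f i.castSucc x1), fun i => ?_, ?_⟩
      · induction i using Fin.lastCases with
        | last =>
          rw [Fin.snoc_last, sub_nonneg]
          refine le_trans (Finset.sum_nonpos fun i _ => ?_) h3.le
          exact mul_nonpos_of_nonneg_of_nonpos (hc i) (h2 i)
        | cast i => rw [Fin.snoc_castSucc]; exact hc i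
      · rw [Fin.sum_univ_castSucc, Fin.snoc_last]
        refine LinearMap.ext fun x => ?_
        have h5 := congrArg (fun l : V →ₗ[ℚ] ℚ => l x) hg
        simp only [LinearMap.sub_apply, LinearMap.smul_apply, smul_eq_mul,
          LinearMap.sum_apply] at h5
        simp only [LinearMap.add_apply, LinearMap.sum_apply, LinearMap.smul_apply, smul_eq_mul,
          Fin.snoc_castSucc]
        rw [sub_eq_iff_eq_add] at h5
        have h6 : ∑ i, c i * (f i.castSucc x - f i.castSucc x1 * f (Fin.last m) x) =
            ∑ i, c i * f i.castSucc x - ∑ i, c i * f i.castSucc x1 * f (Fin.last m) x := by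
          rw [← Finset.sum_sub_distrib]
          exact Finset.sum_congr rfl fun i _ => by ring
        rw [h5, sub_mul, Finset.sum_mul, h6]
        ring

end Pool.Agent.NDR.H27
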